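import Pool.Agent.helper88.EF.Defs
import Pool.Agent.helper23.EF.RS
import Pool.Agent.helper13.EF.DL
import Pool.Agent.helper52.EF.CT

/-! # Project EF, module RF: `D = 7 q` and `D = 21 q` -/

namespace Pool.Agent.helper88.EF

open Finset Pool.Agent.helper76.LP

/-- no bad pairs: the differences vanish -/
theorem RF_core (D q : ℕ) [NeZero D] (L : List ℕ) (ev : Prop) (f : (ZMod D)ˣ → ℤ)
    (h : RHyp D q L ev f) (hc : 7 ≤ Nat.card (Gam D q)) (v : ℕ → (ZMod D)ˣ)
    (hv : ∀ p ∈ L, v p ∈ Gam D p) (hv1 : ∀ p ∈ L, v p ≠ 1) (hsq : ∃ p ∈ L, v p * v p ≠ 1)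
    (hno : ∀ (b : Bool) (S S' : Finset ℕ) (ξ : (ZMod D)ˣ), S ⊆ L.toFinset →
      S' ⊆ L.toFinset → ξ ∈ Gam D q →
      (2 : ZMod D) * ((∏ p ∈ S, v p : (ZMod D)ˣ) : ZMod D) =
        ((su b * ξ * ∏ p ∈ S', v p : (ZMod D)ˣ) : ZMod D) →
      sg b * (-1) ^ (S.card + S'.card) = 1) (z : (ZMod D)ˣ) : dl v L f z = 0 := by
  obtain ⟨ψ, h1, h2, h3⟩ := cube_test D q L h.nd h.hL v hv hv1 (Or.inr hsq) z
  have h4 := bd_one D q L v z ψ h2 ev (fun _ _ => hno)
  have h5 := h.est ψ 1 h1 h4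
  have h6 := h3 f h.odd h.mdv
  rw [h6] at h5
  by_contra hne
  have h7 : (1 : ℤ) ≤ |dl v L f z| := Int.one_le_abs hne
  rw [abs_mul, abs_mul] at h5
  have h8 : (7 : ℤ) ≤ (Nat.card (Gam D q) : ℤ) := by exact_mod_cast hc
  have h9 : |(2 : ℤ)| = 2 := by norm_num
  rw [h9, Nat.abs_cast] at h5
  nlinarith

/-- without bad pairs the differences vanish -/
def RF_Core (D q : ℕ) [NeZero D] (L : List ℕ) (f : (ZMod D)ˣ → ℤ) : Prop :=
  ∀ v : ℕ → (ZMod D)ˣ, (∀ p ∈ L, v p ∈ Gam D p) → (∀ p ∈ L, v p ≠ 1) →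
    (∃ p ∈ L, v p * v p ≠ 1) →
    (∀ (b : Bool) (S S' : Finset ℕ) (ξ : (ZMod D)ˣ), S ⊆ L.toFinset →
      S' ⊆ L.toFinset → ξ ∈ Gam D q →
      (2 : ZMod D) * ((∏ p ∈ S, v p : (ZMod D)ˣ) : ZMod D) =
        ((su b * ξ * ∏ p ∈ S', v p : (ZMod D)ˣ) : ZMod D) →
      sg b * (-1) ^ (S.card + S'.card) = 1) → ∀ z : (ZMod D)ˣ, dl v L f z = 0

theorem RF_prod (D p : ℕ) [NeZero D] (hpD : p ∣ D) (L : List ℕ) (S : Finset ℕ)
    (hS : S ⊆ L.toFinset) (v : ℕ → (ZMod D)ˣ) (hv : ∀ r ∈ L, v r ∈ Gam D r)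
    (hdiv : ∀ r ∈ L, r ≠ p → p ∣ D / r) :
    ZMod.unitsMap hpD (∏ r ∈ S, v r) = if p ∈ S then ZMod.unitsMap hpD (v p) else 1 := by
  rw [map_prod]
  have h1 : ∀ r ∈ S, ZMod.unitsMap hpD (v r) = if r = p then ZMod.unitsMap hpD (v p) else 1 := by
    intro r hr
    split_ifs with h
    · rw [h]
    · have hrL : r ∈ L := List.mem_toFinset.1 (hS hr)
      exact gam_one D r p hpD (hdiv r hrL h) (v r) (hv r hrL)
  rw [Finset.prod_congr rfl h1, Finset.prod_ite_eq']

theorem RF_cast (D p : ℕ) [NeZero D] (hpD : p ∣ D) (u : (ZMod D)ˣ) :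
    ZMod.castHom hpD (ZMod p) (u : ZMod D) = ((ZMod.unitsMap hpD u : (ZMod p)ˣ) : ZMod p) := by
  rw [ZMod.unitsMap_def]
  rfl

/-- reduction of the equation of a bad pair modulo `p` -/
theorem RF_red (D p q : ℕ) [NeZero D] (hpD : p ∣ D) (hq : p ∣ D / q) (L : List ℕ)
    (v : ℕ → (ZMod D)ˣ) (hv : ∀ r ∈ L, v r ∈ Gam D r) (hdiv : ∀ r ∈ L, r ≠ p → p ∣ D / r)
    (b : Bool) (S S' : Finset ℕ) (ξ : (ZMod D)ˣ) (hS : S ⊆ L.toFinset) (hS' : S' ⊆ L.toFinset)
    (hξ : ξ ∈ Gam D q)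
    (he : (2 : ZMod D) * ((∏ p ∈ S, v p : (ZMod D)ˣ) : ZMod D) =
        ((su b * ξ * ∏ p ∈ S', v p : (ZMod D)ˣ) : ZMod D))
    (a : ZMod p) (ha : ((ZMod.unitsMap hpD (v p) : (ZMod p)ˣ) : ZMod p) = a) :
    (2 : ZMod p) * (if p ∈ S then a else 1) =
      (if b then -1 else 1) * (if p ∈ S' then a else 1) := by
  have h1 := congrArg (ZMod.castHom hpD (ZMod p)) he
  rw [map_mul, map_ofNat, RF_cast, RF_cast, map_mul, map_mul, RF_prod D p hpD L S hS v hv hdiv,
    RF_prod D p hpD L S' hS' v hv hdiv, gam_one D q p hpD hq ξ hξ, mul_one, Units.val_mul] at h1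
  have h2 : ((ZMod.unitsMap hpD (su b) : (ZMod p)ˣ) : ZMod p) = if b then -1 else 1 := by
    unfold su
    cases b
    · simp
    · simp [ZMod.unitsMap_def]
  have h3 : ∀ T : Finset ℕ, (((if p ∈ T then ZMod.unitsMap hpD (v p) else 1 : (ZMod p)ˣ)) : ZMod p) =
      if p ∈ T then a else 1 := by
    intro T
    split_ifs
    · exact ha
    · rfl
  rw [h2, h3, h3] at h1
  exact h1

theorem RF_toFinset (D q k : ℕ) [NeZero D] (L : List ℕ) (T : Finset ℕ) (hk : k.primeFactors = T)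
    (hk0 : k ≠ 0) (hq : q.Prime) (hD : D = k * q) (hnd : (q :: L).Nodup)
    (hL : (q :: L).toFinset = D.primeFactors) (hqT : q ∉ T) : L.toFinset = T := by
  have h1 : q ∉ L.toFinset := by
    rw [List.mem_toFinset]
    exact (List.nodup_cons.1 hnd).1
  have h2 : L.toFinset = ((q :: L).toFinset).erase q := by
    rw [List.toFinset_cons, Finset.erase_insert h1]
  rw [h2, hL, hD, Nat.primeFactors_mul hk0 hq.ne_zero, hq.primeFactors, hk]
  ext x
  simp only [Finset.mem_erase, Finset.mem_union, Finset.mem_singleton]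
  constructor
  · rintro ⟨h3, h4 | h4⟩
    · exact h4
    · exact absurd h4 h3
  · intro h3
    exact ⟨fun h4 => hqT (h4 ▸ h3), Or.inl h3⟩

theorem RF_card_one (S : Finset ℕ) (a : ℕ) (h : S ⊆ {a}) : S.card = if a ∈ S then 1 else 0 := by
  rcases Finset.subset_singleton_iff.1 h with rfl | rfl <;> simp

theorem RF_card_two (S : Finset ℕ) (a b : ℕ) (hab : a ≠ b) (h : S ⊆ {a, b}) :
    S.card = (if a ∈ S then 1 else 0) + (if b ∈ S then 1 else 0) := by
  have h1 : S = ({a, b} : Finset ℕ).filter (fun x => x ∈ S) := by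
    ext x
    rw [Finset.mem_filter]
    exact ⟨fun hx => ⟨h hx, hx⟩, fun hx => hx.2⟩
  conv_lhs => rw [h1]
  rw [Finset.card_filter, Finset.sum_pair hab]

theorem RF_gam (D q k : ℕ) [NeZero D] (hq : q.Prime) (h11 : 11 ≤ q) (hD : D = k * q) :
    7 ≤ Nat.card (Gam D q) := by
  rw [card_Gam D q hq ⟨k, by rw [hD, mul_comm]⟩]
  split_ifs <;> omega

theorem RF_div (D q k p r : ℕ) [NeZero D] (hD : D = k * q) (hr : r ∣ k) (h : p ∣ k / r) :
    p ∣ D / r := by
  obtain ⟨l, rfl⟩ := hr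
  have hr0 : 0 < r := by
    rcases Nat.eq_zero_or_pos r with rfl | h0
    · exfalso
      apply NeZero.ne D
      rw [hD]
      simp
    · exact h0
  rw [Nat.mul_div_cancel_left _ hr0] at h
  rw [hD, mul_assoc, Nat.mul_div_cancel_left _ hr0]
  exact Dvd.dvd.mul_right h q

theorem RF_sqf (D q k p : ℕ) [NeZero D] (hq : q.Prime) (hp : p.Prime) (hpq : p ≠ q)
    (hD : D = k * q) (h : ¬ p * p ∣ k) : ¬ p * p ∣ D := by
  rw [hD]
  intro h1
  apply h
  refine Nat.Coprime.dvd_of_dvd_mul_right ?_ h1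
  have := (Nat.coprime_primes hp hq).2 hpq
  exact Nat.Coprime.mul_left this this

theorem RF_closure {p : ℕ} [NeZero p] (A : Set (ZMod p)ˣ) (g : (ZMod p)ˣ) (hg : g ∈ A)
    (h : ∀ x : (ZMod p)ˣ, ∃ n ∈ Finset.range p, g ^ n = x) : Subgroup.closure A = ⊤ := by
  rw [eq_top_iff]
  intro x _
  obtain ⟨n, -, rfl⟩ := h x
  exact Subgroup.pow_mem _ (Subgroup.subset_closure hg) n

/-- generator modulo 7 -/
def RF_g7 : (ZMod 7)ˣ := ⟨3, 5, by decide, by decide⟩

/-- generator modulo 3 -/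
def RF_g3 : (ZMod 3)ˣ := ⟨2, 2, by decide, by decide⟩

theorem RF_top7 : Subgroup.closure ({RF_g7} : Set (ZMod 7)ˣ) = ⊤ :=
  RF_closure _ RF_g7 (Set.mem_singleton _) (by decide)

theorem RF_top3 : Subgroup.closure ({RF_g3} : Set (ZMod 3)ˣ) = ⊤ :=
  RF_closure _ RF_g3 (Set.mem_singleton _) (by decide)

theorem RF_m13 (D q : ℕ) [NeZero D] (L : List ℕ) (f : (ZMod D)ˣ → ℤ) (hq : q.Prime)
    (hnd : (q :: L).Nodup) (hL : (q :: L).toFinset = D.primeFactors)
    (h : RF_Core D q L f) (h11 : 11 ≤ q) (hD : D = 7 * q) : MDv (Gam D) L f := by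
  have h7D : 7 ∣ D := ⟨q, hD⟩
  have hLT : L.toFinset = {7} := RF_toFinset D q 7 L {7} (by norm_num [Nat.Prime.primeFactors])
    (by norm_num) hq hD hnd hL (by simp; omega)
  have hmem : ∀ p ∈ L, p = 7 := by
    intro p hp
    have := List.mem_toFinset.2 hp
    rw [hLT, Finset.mem_singleton] at this
    exact this
  refine mdv_of_dl (Gam D) L (List.nodup_cons.1 hnd).2
    (fun p => {v | v ∈ Gam D p ∧ ∀ hp : p ∣ D, ((ZMod.unitsMap hp v : (ZMod p)ˣ) : ZMod p) = 3})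
    ?_ f ?_
  · intro p hp
    obtain rfl := hmem p hp
    refine (gam_closure D 7 (by norm_num) h7D (RF_sqf D q 7 7 hq (by norm_num) (by omega) hD
      (by norm_num)) {RF_g7} RF_top7).trans ?_
    apply Subgroup.closure_mono
    rintro v ⟨hv1, hv2⟩
    refine ⟨hv1, fun _ => ?_⟩
    rw [Set.mem_singleton_iff] at hv2
    rw [hv2]
    rfl
  · intro v hv z
    have h7L : 7 ∈ L := by
      rw [← List.mem_toFinset, hLT]
      simp
    have hv7 := (hv 7 h7L).2 h7D
    have hvG : ∀ p ∈ L, v p ∈ Gam D p := fun p hp => (hv p hp).1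
    refine h v hvG ?_ ?_ ?_ z
    · intro p hp h1
      obtain rfl := hmem p hp
      rw [h1, map_one, Units.val_one] at hv7
      exact absurd hv7 (by decide)
    · refine ⟨7, h7L, fun h1 => ?_⟩
      have h2 := congrArg (fun u => ((ZMod.unitsMap h7D u : (ZMod 7)ˣ) : ZMod 7)) h1
      simp only [map_mul, map_one, Units.val_mul, Units.val_one, hv7] at h2
      exact absurd h2 (by decide)
    · intro b S S' ξ hS hS' hξ he
      have hdq : 7 ∣ D / q := by
        rw [hD, Nat.mul_div_cancel _ hq.pos]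
      have h1 := RF_red D 7 q h7D hdq L v hvG (fun r hr hne => absurd (hmem r hr) hne) b S S' ξ
        hS hS' hξ he 3 hv7
      rw [hLT] at hS hS'
      rw [RF_card_one S 7 hS, RF_card_one S' 7 hS']
      revert h1
      cases b <;> by_cases hs : 7 ∈ S <;> by_cases hs' : 7 ∈ S' <;>
        simp only [hs, hs', if_true, if_false, sg] <;> decide

theorem r13 (D q : ℕ) [NeZero D] (L : List ℕ) (ev : Prop) (f : (ZMod D)ˣ → ℤ)
    (h : RHyp D q L ev f) (h11 : 11 ≤ q) (hD : D = 7 * q) : MDv (Gam D) L f :=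
  RF_m13 D q L f h.hq h.nd h.hL (fun v hv hv1 hsq hno z => RF_core D q L ev f h
    (RF_gam D q 7 h.hq h11 hD) v hv hv1 hsq hno z) h11 hD

theorem RF_m14 (D q : ℕ) [NeZero D] (L : List ℕ) (f : (ZMod D)ˣ → ℤ) (hq : q.Prime)
    (hnd : (q :: L).Nodup) (hL : (q :: L).toFinset = D.primeFactors)
    (h : RF_Core D q L f) (h11 : 11 ≤ q) (hD : D = 21 * q) : MDv (Gam D) L f := by
  have h7D : 7 ∣ D := ⟨3 * q, by rw [hD]; ring⟩
  have h3D : 3 ∣ D := ⟨7 * q, by rw [hD]; ring⟩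
  have hpf : (21 : ℕ).primeFactors = {3, 7} := by
    rw [show (21 : ℕ) = 3 * 7 by norm_num, Nat.primeFactors_mul (by norm_num) (by norm_num),
      Nat.Prime.primeFactors (by norm_num), Nat.Prime.primeFactors (by norm_num)]
    rfl
  have hLT : L.toFinset = {3, 7} := RF_toFinset D q 21 L {3, 7} hpf
    (by norm_num) hq hD hnd hL (by simp; omega)
  have hmem : ∀ p ∈ L, p = 3 ∨ p = 7 := by
    intro p hp
    have := List.mem_toFinset.2 hp
    rw [hLT, Finset.mem_insert, Finset.mem_singleton] at this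
    exact this
  have h7L : 7 ∈ L := by
    rw [← List.mem_toFinset, hLT]
    simp
  have h3L : 3 ∈ L := by
    rw [← List.mem_toFinset, hLT]
    simp
  refine mdv_of_dl (Gam D) L (List.nodup_cons.1 hnd).2
    (fun p => {v | v ∈ Gam D p ∧ ∀ hp : p ∣ D,
      (p = 7 → ((ZMod.unitsMap hp v : (ZMod p)ˣ) : ZMod p) = 3) ∧
      (p = 3 → ((ZMod.unitsMap hp v : (ZMod p)ˣ) : ZMod p) = 2)})
    ?_ f ?_
  · intro p hp
    rcases hmem p hp with rfl | rfl
    · refine (gam_closure D 3 (by norm_num) h3D (RF_sqf D q 21 3 hq (by norm_num) (by omega) hD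
        (by norm_num)) {RF_g3} RF_top3).trans ?_
      apply Subgroup.closure_mono
      rintro v ⟨hv1, hv2⟩
      refine ⟨hv1, fun _ => ⟨fun h => absurd h (by norm_num), fun _ => ?_⟩⟩
      rw [Set.mem_singleton_iff] at hv2
      rw [hv2]
      rfl
    · refine (gam_closure D 7 (by norm_num) h7D (RF_sqf D q 21 7 hq (by norm_num) (by omega) hD
        (by norm_num)) {RF_g7} RF_top7).trans ?_
      apply Subgroup.closure_mono
      rintro v ⟨hv1, hv2⟩
      refine ⟨hv1, fun _ => ⟨fun _ => ?_, fun h => absurd h (by norm_num)⟩⟩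
      rw [Set.mem_singleton_iff] at hv2
      rw [hv2]
      rfl
  · intro v hv z
    have hv7 := ((hv 7 h7L).2 h7D).1 rfl
    have hv3 := ((hv 3 h3L).2 h3D).2 rfl
    have hvG : ∀ p ∈ L, v p ∈ Gam D p := fun p hp => (hv p hp).1
    refine h v hvG ?_ ?_ ?_ z
    · intro p hp h1
      rcases hmem p hp with rfl | rfl
      · rw [h1, map_one, Units.val_one] at hv3
        exact absurd hv3 (by decide)
      · rw [h1, map_one, Units.val_one] at hv7
        exact absurd hv7 (by decide)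
    · refine ⟨7, h7L, fun h1 => ?_⟩
      have h2 := congrArg (fun u => ((ZMod.unitsMap h7D u : (ZMod 7)ˣ) : ZMod 7)) h1
      simp only [map_mul, map_one, Units.val_mul, Units.val_one, hv7] at h2
      exact absurd h2 (by decide)
    · intro b S S' ξ hS hS' hξ he
      have hdq : D / q = 21 := by
        rw [hD, Nat.mul_div_cancel _ hq.pos]
      have h1 := RF_red D 7 q h7D (by rw [hdq]; norm_num) L v hvG (fun r hr hne => by
        rcases hmem r hr with rfl | rfl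
        · exact RF_div D q 21 7 3 hD (by norm_num) (by norm_num)
        · exact absurd rfl hne) b S S' ξ hS hS' hξ he 3 hv7
      have h2 := RF_red D 3 q h3D (by rw [hdq]; norm_num) L v hvG (fun r hr hne => by
        rcases hmem r hr with rfl | rfl
        · exact absurd rfl hne
        · exact RF_div D q 21 3 7 hD (by norm_num) (by norm_num)) b S S' ξ hS hS' hξ he 2 hv3
      rw [hLT] at hS hS'
      rw [RF_card_two S 3 7 (by norm_num) hS, RF_card_two S' 3 7 (by norm_num) hS']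
      revert h1 h2
      cases b <;> by_cases hs : 7 ∈ S <;> by_cases hs' : 7 ∈ S' <;>
        by_cases ht : 3 ∈ S <;> by_cases ht' : 3 ∈ S' <;>
        simp only [hs, hs', ht, ht', if_true, if_false, sg] <;> decide

theorem r14 (D q : ℕ) [NeZero D] (L : List ℕ) (ev : Prop) (f : (ZMod D)ˣ → ℤ)
    (h : RHyp D q L ev f) (h11 : 11 ≤ q) (hD : D = 21 * q) : MDv (Gam D) L f :=
  RF_m14 D q L f h.hq h.nd h.hL (fun v hv hv1 hsq hno z => RF_core D q L ev f h
    (RF_gam D q 21 h.hq h11 hD) v hv hv1 hsq hno z) h11 hD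

end Pool.Agent.helper88.EF
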