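import Pool.Agent.helper18.EF.RF

/-! # Project EF, module RG: `D = 35 q` and `D = 15 q` -/

namespace Pool.Agent.helper88.EF

open Finset Pool.Agent.helper76.LP

/-- generator modulo 5 -/
def RG_g5 : (ZMod 5)ˣ := ⟨2, 3, by decide, by decide⟩

/-- the residue 2 modulo 7 -/
def RG_h2 : (ZMod 7)ˣ := ⟨2, 4, by decide, by decide⟩

/-- the residue 6 modulo 7 -/
def RG_h6 : (ZMod 7)ˣ := ⟨6, 6, by decide, by decide⟩

theorem RG_top5 : Subgroup.closure ({RG_g5} : Set (ZMod 5)ˣ) = ⊤ :=
  RF_closure _ RG_g5 (Set.mem_singleton _) (by decide)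

theorem RG_top7 : Subgroup.closure ({RG_h2, RG_h6} : Set (ZMod 7)ˣ) = ⊤ := by
  rw [eq_top_iff]
  intro x _
  have h1 : ∀ x : (ZMod 7)ˣ, ∃ n ∈ Finset.range 3, ∃ k ∈ Finset.range 2,
      RG_h2 ^ n * RG_h6 ^ k = x := by decide
  obtain ⟨n, -, k, -, rfl⟩ := h1 x
  exact Subgroup.mul_mem _
    (Subgroup.pow_mem _ (Subgroup.subset_closure (Set.mem_insert _ _)) n)
    (Subgroup.pow_mem _ (Subgroup.subset_closure (Set.mem_insert_of_mem _ (Set.mem_singleton _))) k)

theorem RF_m16 (D q : ℕ) [NeZero D] (L : List ℕ) (f : (ZMod D)ˣ → ℤ) (hq : q.Prime)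
    (hnd : (q :: L).Nodup) (hL : (q :: L).toFinset = D.primeFactors)
    (h : RF_Core D q L f) (h11 : 11 ≤ q) (hD : D = 15 * q) : MDv (Gam D) L f := by
  have h5D : 5 ∣ D := ⟨3 * q, by rw [hD]; ring⟩
  have h3D : 3 ∣ D := ⟨5 * q, by rw [hD]; ring⟩
  have hpf : (15 : ℕ).primeFactors = {3, 5} := by
    rw [show (15 : ℕ) = 3 * 5 by norm_num, Nat.primeFactors_mul (by norm_num) (by norm_num),
      Nat.Prime.primeFactors (by norm_num), Nat.Prime.primeFactors (by norm_num)]
    rfl
  have hLT : L.toFinset = {3, 5} := RF_toFinset D q 15 L {3, 5} hpf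
    (by norm_num) hq hD hnd hL (by simp; omega)
  have hmem : ∀ p ∈ L, p = 3 ∨ p = 5 := by
    intro p hp
    have := List.mem_toFinset.2 hp
    rw [hLT, Finset.mem_insert, Finset.mem_singleton] at this
    exact this
  have h5L : 5 ∈ L := by
    rw [← List.mem_toFinset, hLT]
    simp
  have h3L : 3 ∈ L := by
    rw [← List.mem_toFinset, hLT]
    simp
  refine mdv_of_dl (Gam D) L (List.nodup_cons.1 hnd).2
    (fun p => {v | v ∈ Gam D p ∧ ∀ hp : p ∣ D,
      ((ZMod.unitsMap hp v : (ZMod p)ˣ) : ZMod p) = 2})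
    ?_ f ?_
  · intro p hp
    rcases hmem p hp with rfl | rfl
    · refine (gam_closure D 3 (by norm_num) h3D (RF_sqf D q 15 3 hq (by norm_num) (by omega) hD
        (by norm_num)) {RF_g3} RF_top3).trans ?_
      apply Subgroup.closure_mono
      rintro v ⟨hv1, hv2⟩
      refine ⟨hv1, fun _ => ?_⟩
      rw [Set.mem_singleton_iff] at hv2
      rw [hv2]
      rfl
    · refine (gam_closure D 5 (by norm_num) h5D (RF_sqf D q 15 5 hq (by norm_num) (by omega) hD
        (by norm_num)) {RG_g5} RG_top5).trans ?_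
      apply Subgroup.closure_mono
      rintro v ⟨hv1, hv2⟩
      refine ⟨hv1, fun _ => ?_⟩
      rw [Set.mem_singleton_iff] at hv2
      rw [hv2]
      rfl
  · intro v hv z
    have hv5 := (hv 5 h5L).2 h5D
    have hv3 := (hv 3 h3L).2 h3D
    have hvG : ∀ p ∈ L, v p ∈ Gam D p := fun p hp => (hv p hp).1
    refine h v hvG ?_ ?_ ?_ z
    · intro p hp h1
      rcases hmem p hp with rfl | rfl
      · rw [h1, map_one, Units.val_one] at hv3
        exact absurd hv3 (by decide)
      · rw [h1, map_one, Units.val_one] at hv5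
        exact absurd hv5 (by decide)
    · refine ⟨5, h5L, fun h1 => ?_⟩
      have h2 := congrArg (fun u => ((ZMod.unitsMap h5D u : (ZMod 5)ˣ) : ZMod 5)) h1
      simp only [map_mul, map_one, Units.val_mul, Units.val_one, hv5] at h2
      exact absurd h2 (by decide)
    · intro b S S' ξ hS hS' hξ he
      have hdq : D / q = 15 := by
        rw [hD, Nat.mul_div_cancel _ hq.pos]
      have h1 := RF_red D 5 q h5D (by rw [hdq]; norm_num) L v hvG (fun r hr hne => by
        rcases hmem r hr with rfl | rfl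
        · exact RF_div D q 15 5 3 hD (by norm_num) (by norm_num)
        · exact absurd rfl hne) b S S' ξ hS hS' hξ he 2 hv5
      have h2 := RF_red D 3 q h3D (by rw [hdq]; norm_num) L v hvG (fun r hr hne => by
        rcases hmem r hr with rfl | rfl
        · exact absurd rfl hne
        · exact RF_div D q 15 3 5 hD (by norm_num) (by norm_num)) b S S' ξ hS hS' hξ he 2 hv3
      rw [hLT] at hS hS'
      rw [RF_card_two S 3 5 (by norm_num) hS, RF_card_two S' 3 5 (by norm_num) hS']
      revert h1 h2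
      cases b <;> by_cases hs : 5 ∈ S <;> by_cases hs' : 5 ∈ S' <;>
        by_cases ht : 3 ∈ S <;> by_cases ht' : 3 ∈ S' <;>
        simp only [hs, hs', ht, ht', if_true, if_false, sg] <;> decide

theorem r16 (D q : ℕ) [NeZero D] (L : List ℕ) (ev : Prop) (f : (ZMod D)ˣ → ℤ)
    (h : RHyp D q L ev f) (h11 : 11 ≤ q) (hD : D = 15 * q) : MDv (Gam D) L f :=
  RF_m16 D q L f h.hq h.nd h.hL (fun v hv hv1 hsq hno z => RF_core D q L ev f h
    (RF_gam D q 15 h.hq h11 hD) v hv hv1 hsq hno z) h11 hD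

theorem RF_m15 (D q : ℕ) [NeZero D] (L : List ℕ) (f : (ZMod D)ˣ → ℤ) (hq : q.Prime)
    (hnd : (q :: L).Nodup) (hL : (q :: L).toFinset = D.primeFactors)
    (h : RF_Core D q L f) (h11 : 11 ≤ q) (hD : D = 35 * q) : MDv (Gam D) L f := by
  have h5D : 5 ∣ D := ⟨7 * q, by rw [hD]; ring⟩
  have h7D : 7 ∣ D := ⟨5 * q, by rw [hD]; ring⟩
  have hpf : (35 : ℕ).primeFactors = {5, 7} := by
    rw [show (35 : ℕ) = 5 * 7 by norm_num, Nat.primeFactors_mul (by norm_num) (by norm_num),
      Nat.Prime.primeFactors (by norm_num), Nat.Prime.primeFactors (by norm_num)]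
    rfl
  have hLT : L.toFinset = {5, 7} := RF_toFinset D q 35 L {5, 7} hpf
    (by norm_num) hq hD hnd hL (by simp; omega)
  have hmem : ∀ p ∈ L, p = 5 ∨ p = 7 := by
    intro p hp
    have := List.mem_toFinset.2 hp
    rw [hLT, Finset.mem_insert, Finset.mem_singleton] at this
    exact this
  have h5L : 5 ∈ L := by
    rw [← List.mem_toFinset, hLT]
    simp
  have h7L : 7 ∈ L := by
    rw [← List.mem_toFinset, hLT]
    simp
  refine mdv_of_dl (Gam D) L (List.nodup_cons.1 hnd).2
    (fun p => {v | v ∈ Gam D p ∧ ∀ hp : p ∣ D,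
      (p = 5 → ((ZMod.unitsMap hp v : (ZMod p)ˣ) : ZMod p) = 2) ∧
      (p = 7 → ((ZMod.unitsMap hp v : (ZMod p)ˣ) : ZMod p) = 2 ∨
        ((ZMod.unitsMap hp v : (ZMod p)ˣ) : ZMod p) = 6)})
    ?_ f ?_
  · intro p hp
    rcases hmem p hp with rfl | rfl
    · refine (gam_closure D 5 (by norm_num) h5D (RF_sqf D q 35 5 hq (by norm_num) (by omega) hD
        (by norm_num)) {RG_g5} RG_top5).trans ?_
      apply Subgroup.closure_mono
      rintro v ⟨hv1, hv2⟩
      refine ⟨hv1, fun _ => ⟨fun _ => ?_, fun h => absurd h (by norm_num)⟩⟩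
      rw [Set.mem_singleton_iff] at hv2
      rw [hv2]
      rfl
    · refine (gam_closure D 7 (by norm_num) h7D (RF_sqf D q 35 7 hq (by norm_num) (by omega) hD
        (by norm_num)) {RG_h2, RG_h6} RG_top7).trans ?_
      apply Subgroup.closure_mono
      rintro v ⟨hv1, hv2⟩
      refine ⟨hv1, fun _ => ⟨fun h => absurd h (by norm_num), fun _ => ?_⟩⟩
      rcases hv2 with hv2 | hv2
      · left
        rw [hv2]
        rfl
      · right
        rw [Set.mem_singleton_iff] at hv2
        rw [hv2]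
        rfl
  · intro v hv z
    have hv5 := ((hv 5 h5L).2 h5D).1 rfl
    have hv7 := ((hv 7 h7L).2 h7D).2 rfl
    have hvG : ∀ p ∈ L, v p ∈ Gam D p := fun p hp => (hv p hp).1
    refine h v hvG ?_ ?_ ?_ z
    · intro p hp h1
      rcases hmem p hp with rfl | rfl
      · rw [h1, map_one, Units.val_one] at hv5
        exact absurd hv5 (by decide)
      · rw [h1, map_one, Units.val_one] at hv7
        exact absurd hv7 (by decide)
    · refine ⟨5, h5L, fun h1 => ?_⟩
      have h2 := congrArg (fun u => ((ZMod.unitsMap h5D u : (ZMod 5)ˣ) : ZMod 5)) h1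
      simp only [map_mul, map_one, Units.val_mul, Units.val_one, hv5] at h2
      exact absurd h2 (by decide)
    · intro b S S' ξ hS hS' hξ he
      have hdq : D / q = 35 := by
        rw [hD, Nat.mul_div_cancel _ hq.pos]
      have h1 := RF_red D 5 q h5D (by rw [hdq]; norm_num) L v hvG (fun r hr hne => by
        rcases hmem r hr with rfl | rfl
        · exact absurd rfl hne
        · exact RF_div D q 35 5 7 hD (by norm_num) (by norm_num)) b S S' ξ hS hS' hξ he 2 hv5
      have h2 : ∀ a : ZMod 7, ((ZMod.unitsMap h7D (v 7) : (ZMod 7)ˣ) : ZMod 7) = a → _ :=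
        fun a ha => RF_red D 7 q h7D (by rw [hdq]; norm_num) L v hvG (fun r hr hne => by
          rcases hmem r hr with rfl | rfl
          · exact RF_div D q 35 7 5 hD (by norm_num) (by norm_num)
          · exact absurd rfl hne) b S S' ξ hS hS' hξ he a ha
      rw [hLT] at hS hS'
      rw [RF_card_two S 5 7 (by norm_num) hS, RF_card_two S' 5 7 (by norm_num) hS']
      rcases hv7 with hv7 | hv7
      · have h3 := h2 2 hv7
        clear h2
        revert h1 h3
        cases b <;> by_cases hs : 5 ∈ S <;> by_cases hs' : 5 ∈ S' <;>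
          by_cases ht : 7 ∈ S <;> by_cases ht' : 7 ∈ S' <;>
          simp only [hs, hs', ht, ht', if_true, if_false, sg] <;> decide
      · have h3 := h2 6 hv7
        clear h2
        revert h1 h3
        cases b <;> by_cases hs : 5 ∈ S <;> by_cases hs' : 5 ∈ S' <;>
          by_cases ht : 7 ∈ S <;> by_cases ht' : 7 ∈ S' <;>
          simp only [hs, hs', ht, ht', if_true, if_false, sg] <;> decide

theorem r15 (D q : ℕ) [NeZero D] (L : List ℕ) (ev : Prop) (f : (ZMod D)ˣ → ℤ)
    (h : RHyp D q L ev f) (h11 : 11 ≤ q) (hD : D = 35 * q) : MDv (Gam D) L f :=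
  RF_m15 D q L f h.hq h.nd h.hL (fun v hv hv1 hsq hno z => RF_core D q L ev f h
    (RF_gam D q 35 h.hq h11 hD) v hv hv1 hsq hno z) h11 hD

end Pool.Agent.helper88.EF
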